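import Pool.Agent.Lib.MP_43ef35_gt.P17

/-!
# Which Poincaré duality CDGAs are semi-trivial mapping cones

The middle form of a cone is metabolic over `ℚ`, i.e. its class in the Witt group `W(ℚ)` is zero.
Conversely a CDGA whose cohomology satisfies Poincaré duality in dimension `n - 1` and whose middle
form is metabolic is a cone if `H^1 = 0` (and `H^i = 0` for `i < 0`), or if `n` is even and it has a
connected model of finite type, or if it has a Poincaré duality model in the strict sense, or if it
is formal.

Construction.  If `H^1 = 0`, there is a model `D` that is connected, of finite type, with `D^1 = 0`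
(a sub-CDGA, built degree by degree, of a quotient of a connected sub-CDGA of `A`).  Let `D` be the
model (after a truncation) and `J` a dg ideal of `D` with `J J = 0`
whose cohomology is a Lagrangian in `H(D)` (middle degree: a Lagrangian `L`; above: everything).  Let
`T` be the CDGA of the polynomial forms `∑ t^s a_s + ∑ t^s b_s dt / t` with `1 ≤ s ≤ |a_s|, |b_s|`
(`s = 0` in degree `0`).  Evaluation at `t = 1` is a surjection `T → D`, and `lam = ∫_0^1 ε` satisfies
Stokes' formula `lam(dγ) = ε(γ(1))`.  On `I = {α ∈ T : α(1) ∈ J}` the form `lam(α β)` is closed; let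
`N` be its radical, `Q = T / N`.  The form identifies `I / N` with its dual, and gives a balanced map
`Ψ : s^{-n} #Q → I / N ⊂ Q`.  The CDGA `Γ = T ⊕ s(I ⊕ s⁻¹ J)` has quasi-isomorphisms to the cone of
`Ψ` and to `D`.
-/

set_option autoImplicit false

namespace Pool.Agent.Results.MP_43ef35_gt.MetabolicCones

open Pool.Agent.Lib.MP_43ef35_gt

universe u

/-- Let `A` be a CDGA over `ℚ` whose cohomology satisfies Poincaré duality in dimension `n - 1`.

(1) If `A` is quasi-isomorphic to a cone `Q ⊕_Ψ s s^{-n} #Q`, then the middle form of `A` is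
metabolic (no condition if `4 ∤ n - 1`).

(2) Suppose that `H^i(A) = 0` for all `i < 0` and for `i = 1`, or that `n` is even and `A` is
quasi-isomorphic to a connected CDGA of finite type, or that `A` is quasi-isomorphic to a Poincaré
duality CDGA in the strict sense, or that `A` is non-negatively graded and formal. If the middle form of `A` is metabolic (no condition if `4 ∤ n - 1`), then `A` is
quasi-isomorphic to a cone `Q ⊕_Ψ s s^{-n} #Q` with a non-negatively graded CDGA `Q` of finite type
and a balanced morphism `Ψ`; this cone is non-negatively graded too. -/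
theorem result (A : CDGA.{u}) (n : ℤ) (hA : PoincareDuality A (n - 1)) :
    (∀ (Q : CDGA.{u}) (Ψ : BalancedMap (shiftedDual Q n)), QuasiIsomorphic A (cone Ψ) →
      Metabolic A (n - 1)) ∧
    (((∀ i : ℤ, i < 0 ∨ i = 1 → Subsingleton (A.H i)) ∨
      (Even n ∧ ∃ D : CDGA.{u}, ConnFin D ∧ QuasiIsomorphic A D) ∨
      (∃ (D : CDGA.{u}) (ε : D.A (n - 1) →ₗ[ℚ] ℚ), StrictPD D (n - 1) ε ∧
        QuasiIsomorphic A D) ∨
      (A.IsNonneg ∧ ∃ D : CDGA.{u}, (∀ {i j : ℤ} (h : i + 1 = j) (a : D.A i), D.d h a = 0) ∧
        QuasiIsomorphic A D)) → Metabolic A (n - 1) →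
      ∃ (Q : CDGA.{u}) (Ψ : BalancedMap (shiftedDual Q n)),
        Q.IsNonneg ∧ (∀ i, Module.Finite ℚ (Q.A i)) ∧ (cone Ψ).IsNonneg ∧
        QuasiIsomorphic A (cone Ψ)) :=
  ⟨fun _ Ψ h => metabolic_of_cone hA Ψ h, fun hD hM => cone_of_metabolic3 hA hM hD⟩

end Pool.Agent.Results.MP_43ef35_gt.MetabolicCones
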