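import Pool.Agent.Lib.MP_43ef35_gt.ExampleProps

/-!
# A Poincaré duality CDGA of signature zero which is not a semi-trivial mapping cone

For every `k ≥ 1` the algebra `A = ℚ ⊕ ℚ²[-2k] ⊕ ℚ[-4k]` with zero differential and middle form
`x² - 2y²` satisfies Poincaré duality in dimension `4k = n - 1` and has signature zero, but it is
not quasi-isomorphic to `Q ⊕_Ψ s s^{-n} #Q` for any CDGA `Q` and any balanced `Ψ`.

Reason: if the cohomology of a cone `B = Q ⊕_Ψ s s^{-n} #Q` satisfies Poincaré duality in dimension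
`n - 1 = 4k`, then the image `L` of `H^{2k}(Q) → H^{2k}(B)` satisfies `L = L^⊥`; so the middle form
is metabolic over `ℚ`, i.e. its class in the Witt group of `ℚ` vanishes, which is more than the
vanishing of its signature.
-/

set_option autoImplicit false

namespace Pool.Agent.Results.MP_43ef35_gt.WittCounterexample

open Pool.Agent.Lib.MP_43ef35_gt

universe u

/-- For every `k ≥ 1`, `n = 4k + 1`, there is a non-negatively graded, finite-dimensional CDGA `A`
over `ℚ` with zero differential and `A^1 = 0`, whose cohomology satisfies Poincaré duality in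
dimension `n - 1` and has signature `0`, and which is not quasi-isomorphic to
`Q ⊕_Ψ s s^{-n} #Q` for any CDGA `Q` and any balanced morphism `Ψ : s^{-n} #Q → Q`. -/
theorem result (k n : ℤ) (hk : 1 ≤ k) (hn : n - 1 = 4 * k) :
    ∃ A : CDGA.{u}, A.IsNonneg ∧ (∀ i : ℤ, Module.Finite ℚ (A.A i)) ∧ Subsingleton (A.A 1) ∧
      (∀ {i j : ℤ} (h : i + 1 = j) (a : A.A i), A.d h a = 0) ∧
      PoincareDuality A (n - 1) ∧ SignatureZero A (n - 1) ∧
      ∀ (Q : CDGA.{u}) (Ψ : BalancedMap (shiftedDual Q n)), ¬ QuasiIsomorphic A (cone Ψ) := by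
  rw [hn]
  obtain rfl : n = 4 * k + 1 := by omega
  refine ⟨exA k hk, exA_nonneg k hk, exA_finite k hk,
    exA_subsingleton k hk (by omega) (by omega) (by omega), fun _ _ => rfl, exA_pd k hk,
    exA_signatureZero k hk, fun Q Ψ => ?_⟩
  exact not_quasiIsomorphic_cone Ψ (exA_pd k hk).one_ne_zero (exA_top k hk)
    (show 2 * k + 2 * k = 4 * k by ring) (fun a _ h => exA_aniso k hk a h)
    ⟨_, exA_Z k hk _, exA_mid_ne k hk⟩

end Pool.Agent.Results.MP_43ef35_gt.WittCounterexample
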